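import Pool.Agent.Q106.PK.Stm

/-! Project PK (helper106), job CONV (helper204). -/

set_option autoImplicit false

namespace Pool.Agent.Q204.PK

open Pool.Agent.Q106.PK Filter Topology

theorem t_CONV (_h : S_ONE) : S_CONV := by
  intro lam g hlam ht hmin hlow
  rw [Metric.tendsto_atTop]
  intro ε hε
  set d : ℝ := lam + ε / 4 with hd
  set c : ℝ := lam + ε / 2 with hc
  have hd0 : 0 < d := by positivity
  have hc0 : 0 < c := by positivity
  have hcd : 1 < c / d := by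
    rw [one_lt_div hd0]
    linarith
  have e1 : ∀ᶠ n : ℕ in atTop, (t n : ℝ) ^ (1 / (n : ℝ)) < d := ht.eventually_lt_const (by linarith)
  have e2 : ∀ᶠ n : ℕ in atTop, (n : ℝ) ^ 5 / (c / d) ^ n < 1 :=
    (tendsto_pow_const_div_const_pow_of_one_lt 5 hcd).eventually_lt_const one_pos
  have e3 : ∀ᶠ n : ℕ in atTop, (1 : ℝ) / ((n : ℝ) + 1) < ε / 2 :=
    tendsto_one_div_add_atTop_nhds_zero_nat.eventually_lt_const (by positivity)
  obtain ⟨K, hK⟩ := eventually_atTop.1 ((e1.and e2).and e3)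
  have key : ∀ k : ℕ, K ≤ k → 1 ≤ k → (t k : ℝ) * (k : ℝ) ^ 5 ≤ c ^ k := by
    intro k hk hk1
    obtain ⟨⟨h1, h2⟩, -⟩ := hK k hk
    have h3 : (t k : ℝ) ≤ d ^ k := by
      have h4 : ((t k : ℝ) ^ (1 / (k : ℝ))) ^ k ≤ d ^ k :=
        pow_le_pow_left₀ (Real.rpow_nonneg (Nat.cast_nonneg _) _) h1.le k
      rwa [one_div, Real.rpow_inv_natCast_pow (Nat.cast_nonneg _) (by omega)] at h4
    have h4 : (k : ℝ) ^ 5 ≤ (c / d) ^ k := by
      rw [div_lt_one (by positivity)] at h2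
      exact h2.le
    calc (t k : ℝ) * (k : ℝ) ^ 5 ≤ d ^ k * (c / d) ^ k :=
          mul_le_mul h3 h4 (by positivity) (by positivity)
      _ = c ^ k := by
          rw [← mul_pow, mul_div_cancel₀ _ hd0.ne']
  refine ⟨max K 36, fun m hm => ?_⟩
  have hmK : K ≤ m := (le_max_left _ _).trans hm
  have hm36 : 36 ≤ m := (le_max_right _ _).trans hm
  have h5 := hlow m hm36
  obtain ⟨-, h6⟩ := hK m hmK
  have hm0 : (0 : ℝ) < (m : ℝ) + 1 := by positivity
  have hg0 : 1 ≤ g m := by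
    rw [le_div_iff₀ hm0] at h5
    have : (0 : ℝ) < g m := lt_of_lt_of_le (by positivity) h5
    have h7 : 0 < g m := by exact_mod_cast this
    omega
  have hn : ¬ Adm t (m + 1) (g m - 1) := by
    intro h
    have := hmin m _ h
    omega
  unfold Adm at hn
  push Not at hn
  obtain ⟨k, hk1, hk2, hk3⟩ := hn
  have h8 : (((g m - 1 : ℕ) : ℝ)) ^ k < (c * ((m : ℝ) + 1)) ^ k := by
    have h9 : (((g m - 1 : ℕ) : ℝ)) ^ k < (t k : ℝ) * (k : ℝ) ^ 5 * ((m : ℝ) + 1) ^ k := by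
      exact_mod_cast hk3
    refine h9.trans_le ?_
    rw [mul_pow]
    exact mul_le_mul_of_nonneg_right (key k (by omega) (by omega)) (by positivity)
  have h10 : ((g m - 1 : ℕ) : ℝ) < c * ((m : ℝ) + 1) := lt_of_pow_lt_pow_left₀ k (by positivity) h8
  rw [Nat.cast_sub hg0, Nat.cast_one] at h10
  have h11 : (g m : ℝ) / ((m : ℝ) + 1) < c + 1 / ((m : ℝ) + 1) := by
    rw [div_lt_iff₀ hm0, add_mul, one_div, inv_mul_cancel₀ hm0.ne']
    linarith
  rw [Real.dist_eq, abs_lt]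
  constructor
  · linarith
  · linarith

end Pool.Agent.Q204.PK
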