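import Pool.Agent.Q106.PK.Stm

/-! Project PK (helper106), job PCOMP (helper204). -/

set_option autoImplicit false

namespace Pool.Agent.Q204.PK

open Pool.Agent.Q106.PK

/-- zero iff `k` is not an obstruction -/
def bad (f : ℕ → ℕ) (m p k : ℕ) : ℕ := (f k * k ^ 5 * m ^ k - p ^ k) * (k + 1 - m)

/-- sum of the obstructions -/
def sm (f : ℕ → ℕ) (m p : ℕ) (N : ℕ) : ℕ := Nat.rec 0 (fun k a => a + bad f m p k) N

theorem bad_eq (f : ℕ → ℕ) (m p k : ℕ) : bad f m p k = 0 ↔ (m ≤ k → f k * k ^ 5 * m ^ k ≤ p ^ k) := by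
  unfold bad
  rw [Nat.mul_eq_zero, Nat.sub_eq_zero_iff_le, Nat.sub_eq_zero_iff_le]
  constructor
  · rintro (h | h) h2
    · exact h
    · omega
  · intro h
    by_cases h2 : m ≤ k
    · exact Or.inl (h h2)
    · right
      omega

theorem sm_succ (f : ℕ → ℕ) (m p N : ℕ) : sm f m p (N + 1) = sm f m p N + bad f m p N := rfl

theorem sm_eq (f : ℕ → ℕ) (m p N : ℕ) : sm f m p N = 0 ↔ ∀ k < N, (m ≤ k → f k * k ^ 5 * m ^ k ≤ p ^ k) := by
  induction N with
  | zero => simp [sm]
  | succ N ih =>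
    rw [sm_succ, Nat.add_eq_zero_iff, ih, bad_eq]
    constructor
    · rintro ⟨h1, h2⟩ k hk
      rcases Nat.lt_succ_iff_lt_or_eq.1 hk with h | h
      · exact h1 k h
      · rw [h]
        exact h2
    · intro h
      exact ⟨fun k hk => h k (by omega), h N (by omega)⟩

theorem adm_iff (f : ℕ → ℕ) (m p : ℕ) : Adm f m p ↔ sm f m p (4 * m + 1) = 0 := (sm_eq f m p _).symm

theorem comp_sm (f : ℕ → ℕ) (hf : Computable f) :
    Computable (fun a : ℕ × ℕ => sm f (a.1 + 1) a.2 (4 * (a.1 + 1) + 1)) := by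
  have hpow : Computable₂ (fun a b : ℕ => a ^ b) := (Primrec₂.unpaired'.1 Nat.Primrec.pow).to_comp
  have hadd : Computable₂ (fun a b : ℕ => a + b) := Primrec.nat_add.to_comp
  have hsub : Computable₂ (fun a b : ℕ => a - b) := Primrec.nat_sub.to_comp
  have hmul : Computable₂ (fun a b : ℕ => a * b) := Primrec.nat_mul.to_comp
  have c : ∀ {α : Type} [Primcodable α] (n : ℕ), Computable (fun _ : α => n) := fun n => Computable.const n
  have h1 : Computable (fun a : ℕ × ℕ => 4 * (a.1 + 1) + 1) :=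
    hadd.comp (hmul.comp (c 4) (hadd.comp Computable.fst (c 1))) (c 1)
  have xk : Computable (fun x : (ℕ × ℕ) × (ℕ × ℕ) => x.2.1) := Computable.fst.comp Computable.snd
  have xa : Computable (fun x : (ℕ × ℕ) × (ℕ × ℕ) => x.2.2) := Computable.snd.comp Computable.snd
  have xm : Computable (fun x : (ℕ × ℕ) × (ℕ × ℕ) => x.1.1 + 1) :=
    hadd.comp (Computable.fst.comp Computable.fst) (c 1)
  have xp : Computable (fun x : (ℕ × ℕ) × (ℕ × ℕ) => x.1.2) := Computable.snd.comp Computable.fst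
  have h2 : Computable₂ (fun (a : ℕ × ℕ) (y : ℕ × ℕ) => y.2 + bad f (a.1 + 1) a.2 y.1) :=
    hadd.comp xa (hmul.comp (hsub.comp (hmul.comp (hmul.comp (hf.comp xk) (hpow.comp xk (c 5)))
      (hpow.comp xm xk)) (hpow.comp xp xk)) (hsub.comp (hadd.comp xk (c 1)) xm))
  exact Computable.nat_rec h1 (c 0) h2

/-- the test for zero -/
def z (n : ℕ) : Bool := Nat.casesOn n true (fun _ => false)

theorem t_PCOMP (h : S_PEX) : S_PCOMP := by
  classical
  intro f hf
  have hex : ∀ m, ∃ p, Adm f (m + 1) p := fun m => h f (m + 1) (by omega)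
  refine ⟨fun m => Nat.find (hex m), ?_, fun m => ⟨Nat.find_spec (hex m), fun p hp => Nat.find_min' (hex m) hp⟩⟩
  have htest : Computable (fun a : ℕ × ℕ => z (sm f (a.1 + 1) a.2 (4 * (a.1 + 1) + 1))) :=
    Computable.nat_casesOn (comp_sm f hf) (Computable.const true)
      (Computable.const false : Computable (fun _ : (ℕ × ℕ) × ℕ => false)).to₂
  have hp : Partrec₂ (fun (m : ℕ) (p : ℕ) => (Part.some (z (sm f (m + 1) p (4 * (m + 1) + 1))) : Part Bool)) :=
    htest.partrec
  have hr : Partrec fun m : ℕ => Nat.rfind (fun p =>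
      (Part.some (z (sm f (m + 1) p (4 * (m + 1) + 1))) : Part Bool)) := Partrec.rfind hp
  refine hr.of_eq fun m => ?_
  apply Part.eq_some_iff.2
  rw [Nat.mem_rfind]
  constructor
  · have h1 := (adm_iff f (m + 1) _).1 (Nat.find_spec (hex m))
    rw [Part.mem_some_iff, h1]
    rfl
  · intro p hp
    have h1 := Nat.find_min (hex m) hp
    rw [adm_iff] at h1
    rw [Part.mem_some_iff]
    cases h2 : sm f (m + 1) p (4 * (m + 1) + 1) with
    | zero => exact absurd h2 h1
    | succ n => rfl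

end Pool.Agent.Q204.PK
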